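import Mathlib

/-!
Good graphs of bounded treewidth need arbitrarily many labels in a good edge-labeling.

The graph `Gn n` has the vertices `v`, `a_i` (`i < n + 2`), `c_i, p_i, q_i` (`i < n`) and the edges
`v a_i`, `c_i a_i`, `c_i a_{i+2}`, `c_i p_i`, `c_i q_i`, `a_{i+1} p_i`, `a_{i+1} q_i`.
In every good edge-labeling the label of `v a_{i+1}` is strictly between those of `v a_i` and
`v a_{i+2}`, so the `n + 2` labels of the edges at `v` are distinct.
-/

set_option linter.unusedSimpArgs false
set_option linter.unusedTactic false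
set_option linter.unreachableTactic false

namespace Pool.Agent.Results.MP_67e79f_co.TreewidthLabels

open SimpleGraph

/-- The labels of the edges of the walk `p`, in their order on `p`, are non-decreasing. -/
def Increasing {V : Type*} {G : SimpleGraph V} (lab : Sym2 V → ℝ) {x y : V} (p : G.Walk x y) :
    Prop :=
  (p.edges.map lab).Pairwise (· ≤ ·)

/-- `lab` is a good edge-labeling of `G`: for all `x, y` there are never two distinct increasing
paths from `x` to `y`. -/
def IsGoodLabeling {V : Type*} (G : SimpleGraph V) (lab : Sym2 V → ℝ) : Prop :=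
  ∀ (x y : V) (p q : G.Walk x y), p.IsPath → q.IsPath → Increasing lab p → Increasing lab q →
    p = q

/-- `G` is good. -/
def IsGood {V : Type*} (G : SimpleGraph V) : Prop := ∃ lab, IsGoodLabeling G lab

/-- `G` is `c`-good: it has a good edge-labeling with at most `c` distinct values. -/
def IsCGood {V : Type*} (c : ℕ) (G : SimpleGraph V) : Prop :=
  ∃ lab, IsGoodLabeling G lab ∧ (lab '' G.edgeSet).encard ≤ c

/-- `G` has a tree decomposition of width at most `w`: a tree `T` on `Fin m` and bags `bag i` with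
at most `w + 1` elements, such that every vertex and every edge is contained in a bag, and the
nodes whose bags contain a given vertex form a connected subtree. -/
def HasTreeDecomposition {V : Type*} (G : SimpleGraph V) (w : ℕ) : Prop :=
  ∃ (m : ℕ) (T : SimpleGraph (Fin m)) (bag : Fin m → Set V), T.IsTree ∧
    (∀ x, ∃ i, x ∈ bag i) ∧ (∀ x y, G.Adj x y → ∃ i, x ∈ bag i ∧ y ∈ bag i) ∧
    (∀ x, (T.induce {i | x ∈ bag i}).Preconnected) ∧ ∀ i, (bag i).encard ≤ w + 1

/-- The treewidth of `G`. -/
noncomputable def treewidth {V : Type*} (G : SimpleGraph V) : ℕ :=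
  sInf {w | HasTreeDecomposition G w}

section general

variable {V : Type*}

/-- A criterion for good labelings. -/
lemma good_of_F (G : SimpleGraph V) (lab : Sym2 V → ℝ) (F : V → V → V → Prop)
    (h1 : ∀ x y, G.Adj x y → F x y y)
    (h2 : ∀ x y z w, G.Adj x y → G.Adj y z → z ≠ x → lab s(x, y) ≤ lab s(y, z) → F y z w →
      F x y w)
    (h3 : ∀ x y y' w, G.Adj x y → G.Adj x y' → F x y w → F x y' w → y = y') :
    IsGoodLabeling G lab := by
  have key : ∀ (y w : V) (p : G.Walk y w) (x : V) (h : G.Adj x y), (Walk.cons h p).IsPath →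
      Increasing lab (Walk.cons h p) → F x y w := by
    intro y w p
    induction p with
    | nil => intro x h _ _; exact h1 _ _ h
    | @cons a b c hab q ih =>
      intro x h hp hi
      rw [Walk.cons_isPath_iff] at hp
      obtain ⟨hp1, hp2⟩ := hp
      have hi0 := hi
      unfold Increasing at hi
      simp only [Walk.edges_cons, List.map_cons, List.pairwise_cons] at hi
      refine h2 _ _ _ _ h hab ?_ (hi.1 _ (by simp)) (ih a hab hp1 ?_)
      · rintro rfl
        exact hp2 (by simp)
      · unfold Increasing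
        simp only [Walk.edges_cons, List.map_cons, List.pairwise_cons]
        exact hi.2
  intro x y p
  induction p with
  | nil =>
    intro q _ hq _ _
    exact ((Walk.isPath_iff_nil.mp hq).eq_nil).symm
  | @cons a b c hab p ih =>
    intro q hp hq hip hiq
    cases q with
    | nil => exact absurd (Walk.isPath_iff_nil.mp hp).eq_nil (by simp)
    | @cons _ b' _ hab' q' =>
      have e := h3 _ _ _ _ hab hab' (key _ _ p _ hab hp hip) (key _ _ q' _ hab' hq hiq)
      subst e
      have hp' := (Walk.cons_isPath_iff _ _).mp hp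
      have hq' := (Walk.cons_isPath_iff _ _).mp hq
      unfold Increasing at hip hiq
      simp only [Walk.edges_cons, List.map_cons, List.pairwise_cons] at hip hiq
      rw [ih q' hp'.1 hq'.1 hip.2 hiq.2]

lemma good_comap {W : Type*} (f : V → W) (hf : Function.Injective f) (G : SimpleGraph W)
    (lab : Sym2 W → ℝ) (h : IsGoodLabeling G lab) :
    IsGoodLabeling (G.comap f) (fun e => lab (e.map f)) := by
  intro x y p q hp hq hip hiq
  have hmap : ∀ r : (G.comap f).Walk x y, Increasing (fun e => lab (e.map f)) r →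
      Increasing lab (r.map (Hom.comap f G)) := by
    intro r hr
    unfold Increasing at hr ⊢
    rw [Walk.edges_map, List.map_map]
    exact hr
  have := h _ _ (p.map (Hom.comap f G)) (q.map (Hom.comap f G))
    (Walk.IsPath.map hf hp) (Walk.IsPath.map hf hq)
    (hmap p hip) (hmap q hiq)
  exact Walk.map_injective_of_injective (f := Hom.comap f G) hf _ _ this

lemma increasing_neg {G : SimpleGraph V} {lab : Sym2 V → ℝ} {x y : V} {p : G.Walk x y}
    (h : Increasing (fun e => - lab e) p) : Increasing lab p.reverse := by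
  unfold Increasing at h ⊢
  rw [Walk.edges_reverse, List.map_reverse, List.pairwise_reverse]
  rw [List.pairwise_map] at h ⊢
  exact h.imp (fun hab => by simpa using hab)

lemma good_neg {G : SimpleGraph V} {lab : Sym2 V → ℝ} (h : IsGoodLabeling G lab) :
    IsGoodLabeling G (fun e => - lab e) := by
  intro x y p q hp hq hip hiq
  have := h _ _ p.reverse q.reverse hp.reverse hq.reverse (increasing_neg hip)
    (increasing_neg hiq)
  exact Walk.reverse_injective this

/-- four-cycles -/
lemma c4 {G : SimpleGraph V} {lab : Sym2 V → ℝ} (hg : IsGoodLabeling G lab) {v a c d : V}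
    (hva : G.Adj v a) (hac : G.Adj a c) (hvd : G.Adj v d) (hdc : G.Adj d c) (hvc : v ≠ c)
    (had : a ≠ d) : ¬ (lab s(v, a) ≤ lab s(a, c) ∧ lab s(v, d) ≤ lab s(d, c)) := by
  rintro ⟨h1, h2⟩
  have := hg v c (Walk.cons hva (Walk.cons hac Walk.nil)) (Walk.cons hvd (Walk.cons hdc Walk.nil))
    (by simp [Walk.cons_isPath_iff, hac.ne, hva.ne, hvc])
    (by simp [Walk.cons_isPath_iff, hdc.ne, hvd.ne, hvc])
    (by simpa [Increasing] using h1) (by simpa [Increasing] using h2)
  have h3 := congrArg Walk.support this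
  simp at h3
  exact had h3

/-- five-cycles -/
lemma c5 {G : SimpleGraph V} {lab : Sym2 V → ℝ} (hg : IsGoodLabeling G lab) {v x c r b : V}
    (hvx : G.Adj v x) (hxc : G.Adj x c) (hcr : G.Adj c r) (hrb : G.Adj r b) (hbv : G.Adj b v)
    (hvc : v ≠ c) (hvr : v ≠ r) (hxr : x ≠ r) (hxb : x ≠ b) (hcb : c ≠ b) :
    ¬ (lab s(b, v) ≤ lab s(v, x) ∧ lab s(v, x) ≤ lab s(x, c) ∧ lab s(r, b) ≤ lab s(c, r)) := by
  rintro ⟨h1, h2, h3⟩
  rcases le_total (lab s(r, b)) (lab s(b, v)) with h4 | h4
  · have h5 := hg r c (Walk.cons hrb (Walk.cons hbv (Walk.cons hvx (Walk.cons hxc Walk.nil))))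
      (Walk.cons hcr.symm Walk.nil)
      (by simp [Walk.cons_isPath_iff, hxc.ne, hvx.ne, hvc, hbv.ne, hxb.symm, hcb.symm, hrb.ne,
          hvr.symm, hxr.symm, hcr.ne.symm])
      (by simp [Walk.cons_isPath_iff, hcr.ne.symm])
      (by
        simp only [Increasing, Walk.edges_cons, Walk.edges_nil, List.map_cons, List.map_nil,
          List.pairwise_cons, List.mem_cons, List.not_mem_nil, or_false, forall_eq_or_imp,
          forall_eq, false_implies, implies_true, List.Pairwise.nil, and_true]
        refine ⟨⟨h4, h4.trans h1, (h4.trans h1).trans h2⟩, ⟨h1, h1.trans h2⟩, h2⟩)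
      (by simp [Increasing])
    have h6 := congrArg Walk.length h5
    simp at h6
  · have h5 := hg b c (Walk.cons hbv (Walk.cons hvx (Walk.cons hxc Walk.nil)))
      (Walk.cons hrb.symm (Walk.cons hcr.symm Walk.nil))
      (by simp [Walk.cons_isPath_iff, hxc.ne, hvx.ne, hvc, hbv.ne, hxb.symm, hcb.symm])
      (by simp [Walk.cons_isPath_iff, hcr.ne.symm, hrb.ne.symm, hcb.symm])
      (by
        simp only [Increasing, Walk.edges_cons, Walk.edges_nil, List.map_cons, List.map_nil,
          List.pairwise_cons, List.mem_cons, List.not_mem_nil, or_false, forall_eq_or_imp,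
          forall_eq, false_implies, implies_true, List.Pairwise.nil, and_true]
        refine ⟨⟨h1, h1.trans h2⟩, h2⟩)
      (by
        have e1 : s(b, r) = s(r, b) := Sym2.eq_swap
        have e2 : s(r, c) = s(c, r) := Sym2.eq_swap
        simp only [Increasing, Walk.edges_cons, Walk.edges_nil, List.map_cons, List.map_nil,
          List.pairwise_cons, List.mem_cons, List.not_mem_nil, or_false, forall_eq_or_imp,
          forall_eq, false_implies, implies_true, List.Pairwise.nil, and_true, e1, e2]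
        exact h3)
    have h6 := congrArg Walk.length h5
    simp at h6

/-- four-cycles alternate -/
lemma c4_alt {G : SimpleGraph V} {lab : Sym2 V → ℝ} (hg : IsGoodLabeling G lab) {v a c d : V}
    (hva : G.Adj v a) (hac : G.Adj a c) (hvd : G.Adj v d) (hdc : G.Adj d c) (hvc : v ≠ c)
    (had : a ≠ d) : (lab s(v, a) < lab s(a, c) ∧ lab s(d, c) < lab s(v, d)) ∨
      (lab s(a, c) < lab s(v, a) ∧ lab s(v, d) < lab s(d, c)) := by
  have h1 := c4 hg hva hac hvd hdc hvc had
  have h2 := c4 (good_neg hg) hva hac hvd hdc hvc had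
  simp only [neg_le_neg_iff] at h2
  rcases lt_or_ge (lab s(v, a)) (lab s(a, c)) with h | h
  · left
    refine ⟨h, ?_⟩
    by_contra h'
    exact h1 ⟨h.le, not_lt.mp h'⟩
  · right
    have h3 : lab s(v, d) < lab s(d, c) := by
      by_contra h'
      exact h2 ⟨h, not_lt.mp h'⟩
    refine ⟨?_, h3⟩
    by_contra h'
    exact h1 ⟨not_lt.mp h', h3.le⟩

/-- The betweenness gadget. -/
lemma between {G : SimpleGraph V} {lab : Sym2 V → ℝ} (hg : IsGoodLabeling G lab)
    {v a b d c p q : V} (hva : G.Adj v a) (hvb : G.Adj v b) (hvd : G.Adj v d) (hac : G.Adj a c)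
    (hdc : G.Adj d c) (hcp : G.Adj c p) (hcq : G.Adj c q) (hpb : G.Adj p b) (hqb : G.Adj q b)
    (hvc : v ≠ c) (hvp : v ≠ p) (hvq : v ≠ q) (hab : a ≠ b) (had : a ≠ d) (hbd : b ≠ d)
    (hap : a ≠ p) (haq : a ≠ q) (hdp : d ≠ p) (hdq : d ≠ q) (hcb : c ≠ b) (hpq : p ≠ q) :
    (lab s(v, a) < lab s(v, b) ∧ lab s(v, b) < lab s(v, d)) ∨
      (lab s(v, b) < lab s(v, a) ∧ lab s(v, d) < lab s(v, b)) := by
  have hg' := good_neg hg
  -- one of p, q has the larger label at b, the other one at c
  have hA := c4_alt hg hva hac hvd hdc hvc had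
  have hB := c4_alt hg hcp hpb hcq hqb hcb hpq
  have ebv : s(b, v) = s(v, b) := Sym2.eq_swap
  obtain ⟨r, r', hcr, hrb, hvr, har, hdr, hcr', hrb', hvr', har', hdr', hr, hr'⟩ :
      ∃ r r', G.Adj c r ∧ G.Adj r b ∧ v ≠ r ∧ a ≠ r ∧ d ≠ r ∧ G.Adj c r' ∧ G.Adj r' b ∧ v ≠ r' ∧
        a ≠ r' ∧ d ≠ r' ∧ lab s(r, b) ≤ lab s(c, r) ∧ lab s(c, r') ≤ lab s(r', b) := by
    rcases hB with ⟨h1, h2⟩ | ⟨h1, h2⟩
    · exact ⟨q, p, hcq, hqb, hvq, haq, hdq, hcp, hpb, hvp, hap, hdp, h2.le, h1.le⟩
    · exact ⟨p, q, hcp, hpb, hvp, hap, hdp, hcq, hqb, hvq, haq, hdq, h1.le, h2.le⟩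
  have up : ∀ x, G.Adj v x → G.Adj x c → x ≠ b → x ≠ r → lab s(v, x) < lab s(x, c) →
      lab s(v, x) < lab s(v, b) := by
    intro x hvx hxc hxb hxr h
    by_contra h'
    refine c5 hg hvx hxc hcr hrb hvb.symm hvc hvr hxr hxb hcb ⟨?_, h.le, hr⟩
    rw [ebv]
    exact not_lt.mp h'
  have down : ∀ x, G.Adj v x → G.Adj x c → x ≠ b → x ≠ r' → lab s(x, c) < lab s(v, x) →
      lab s(v, b) < lab s(v, x) := by
    intro x hvx hxc hxb hxr h
    by_contra h'
    refine c5 hg' hvx hxc hcr' hrb' hvb.symm hvc hvr' hxr hxb hcb ⟨?_, ?_, ?_⟩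
    · rw [ebv]
      exact neg_le_neg (not_lt.mp h')
    · exact neg_le_neg h.le
    · exact neg_le_neg hr'
  rcases hA with ⟨h1, h2⟩ | ⟨h1, h2⟩
  · exact Or.inl ⟨up a hva hac hab har h1, down d hvd hdc hbd.symm hdr' h2⟩
  · exact Or.inr ⟨down a hva hac hab har' h1, up d hvd hdc hbd.symm hdr h2⟩

end general

/-! ### The infinite graph -/

/-- The vertices. -/
inductive Vx where
  | v : Vx
  | a : ℕ → Vx
  | c : ℕ → Vx
  | p : ℕ → Vx
  | q : ℕ → Vx
  deriving DecidableEq

/-- half of the adjacency relation -/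
def half : Vx → Vx → Prop
  | .v, .a _ => True
  | .c i, .a j => j = i ∨ j = i + 2
  | .c i, .p j => j = i
  | .c i, .q j => j = i
  | .a i, .p j => i = j + 1
  | .a i, .q j => i = j + 1
  | _, _ => False

/-- The infinite graph. -/
def Ginf : SimpleGraph Vx where
  Adj x y := half x y ∨ half y x
  symm := ⟨fun _ _ h => Or.symm h⟩
  loopless := ⟨by rintro (_ | _ | _ | _ | _) h <;> simp [half] at h⟩

lemma Ginf_adj {x y : Vx} : Ginf.Adj x y ↔ half x y ∨ half y x := Iff.rfl

/-- The label of the edge `v a_i`. -/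
noncomputable def sig (i : ℕ) : ℝ := 2 - 1 / ((i : ℝ) + 1)

lemma sig_le_iff {i j : ℕ} : sig i ≤ sig j ↔ i ≤ j := by
  unfold sig
  have hi : (0 : ℝ) < (i : ℝ) + 1 := by positivity
  have hj : (0 : ℝ) < (j : ℝ) + 1 := by positivity
  rw [sub_le_sub_iff_left, one_div_le_one_div hj hi]
  constructor
  · intro h
    have : (i : ℝ) ≤ j := by linarith
    exact_mod_cast this
  · intro h
    have : (i : ℝ) ≤ j := by exact_mod_cast h
    linarith

lemma one_le_sig (i : ℕ) : 1 ≤ sig i := by
  unfold sig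
  have hi : (0 : ℝ) < (i : ℝ) + 1 := by positivity
  have : 1 / ((i : ℝ) + 1) ≤ 1 := by
    rw [div_le_one hi]
    have : (0 : ℝ) ≤ (i : ℝ) := Nat.cast_nonneg i
    linarith
  linarith

lemma sig_lt_two (i : ℕ) : sig i < 2 := by
  unfold sig
  have hi : (0 : ℝ) < 1 / ((i : ℝ) + 1) := by positivity
  linarith

/-- The labels. -/
noncomputable def L : Vx → Vx → ℝ
  | .v, .a i => sig i
  | .a i, .v => sig i
  | .c i, .a j => if j = i then 3 else 1 / 2
  | .a j, .c i => if j = i then 3 else 1 / 2
  | .c _, .p _ => 3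
  | .p _, .c _ => 3
  | .c _, .q _ => 0
  | .q _, .c _ => 0
  | .a _, .p _ => 0
  | .p _, .a _ => 0
  | .a _, .q _ => 3
  | .q _, .a _ => 3
  | _, _ => 0

lemma L_symm (x y : Vx) : L x y = L y x := by
  rcases x with _ | _ | _ | _ | _ <;> rcases y with _ | _ | _ | _ | _ <;> simp [L]

/-- The labeling of the infinite graph. -/
noncomputable def lab0 : Sym2 Vx → ℝ := Sym2.lift ⟨L, L_symm⟩

lemma lab0_mk (x y : Vx) : lab0 s(x, y) = L x y := rfl

/-- the index of the high component, `0` for `v` -/
def H : Vx → ℕ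
  | .v => 0
  | .a i => i + 1
  | .c i => i + 1
  | .p i => i + 1
  | .q i => i + 2

/-- the position in the high component `q_{i-1}, a_i, c_i, p_i` -/
def pos : Vx → ℕ
  | .v => 0
  | .a _ => 1
  | .c _ => 2
  | .p _ => 3
  | .q _ => 0

/-- a set which contains the vertices `w` that can be reached by an increasing path which starts
with the step from `x` to `y` -/
def F : Vx → Vx → Vx → Prop
  | .v, .a j, w => H w = j + 1
  | .a i, .v, w => H w = 0 ∨ i + 1 < H w
  | .a i, .c j, w => if i = j then H w = i + 1 ∧ 1 < pos w else H w = j + 1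
  | .a _, .p j, w => H w = j + 1
  | .a i, .q _, w => H w = i + 1 ∧ pos w < 1
  | .c i, .a j, w => if j = i then H w = i + 1 ∧ pos w < 2 else H w = 0 ∨ i + 3 ≤ H w
  | .c i, .q _, w => H w = i + 2
  | .c i, .p _, w => H w = i + 1 ∧ 2 < pos w
  | .q i, .c _, w => H w = 0 ∨ H w = i + 1 ∨ i + 3 ≤ H w
  | .q i, .a _, w => H w = i + 2 ∧ 0 < pos w
  | .p i, .a _, w => H w = 0 ∨ H w = i ∨ i + 2 ≤ H w
  | .p i, .c _, w => H w = i + 1 ∧ pos w < 3
  | _, _, _ => False

lemma F1 (x y : Vx) (h : Ginf.Adj x y) : F x y y := by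
  rcases x with _ | i | i | i | i <;> rcases y with _ | j | j | j | j <;>
    simp only [Ginf_adj, half, or_self, or_false, false_or] at h <;>
    simp only [F, H, pos] <;> (try split_ifs) <;>
    first
      | omega
      | exact Or.inl trivial

lemma F3 (x y y' w : Vx) (h : Ginf.Adj x y) (h' : Ginf.Adj x y') (hF : F x y w)
    (hF' : F x y' w) : y = y' := by
  rcases x with _ | i | i | i | i <;> rcases y with _ | j | j | j | j <;>
    simp only [Ginf_adj, half, or_self, or_false, false_or] at h <;>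
    rcases y' with _ | k | k | k | k <;>
    simp only [Ginf_adj, half, or_self, or_false, false_or] at h' <;>
    simp only [F] at hF hF' <;> (try split_ifs at hF hF') <;>
    first
      | (exfalso; omega)
      | rfl
      | (congr 1; omega)

lemma sig_le_zero (i : ℕ) : ¬ sig i ≤ 0 := by
  have := one_le_sig i
  intro h
  linarith

lemma sig_le_half (i : ℕ) : ¬ sig i ≤ 1 / 2 := by
  have := one_le_sig i
  intro h
  linarith

lemma three_le_sig (i : ℕ) : ¬ 3 ≤ sig i := by
  have := sig_lt_two i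
  intro h
  linarith

lemma F2 (x y z w : Vx) (h : Ginf.Adj x y) (h' : Ginf.Adj y z) (hne : z ≠ x)
    (hl : L x y ≤ L y z) (hF : F y z w) : F x y w := by
  have n1 : ¬ (3 : ℝ) ≤ 0 := by norm_num
  have n2 : ¬ (3 : ℝ) ≤ 1 / 2 := by norm_num
  have n3 : ¬ (1 / 2 : ℝ) ≤ 0 := by norm_num
  rcases x with _ | i | i | i | i <;> rcases y with _ | j | j | j | j <;>
    simp only [Ginf_adj, half, or_self, or_false, false_or] at h <;>
    rcases z with _ | k | k | k | k <;>
    simp only [Ginf_adj, half, or_self, or_false, false_or] at h' <;>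
    simp only [L, F, ne_eq, Vx.a.injEq, Vx.c.injEq, Vx.p.injEq, Vx.q.injEq, reduceCtorEq,
      not_false_eq_true, not_true_eq_false] at hl hF hne ⊢ <;>
    (try split_ifs at hl hF ⊢) <;>
    first
      | omega
      | exact absurd hl n1
      | exact absurd hl n2
      | exact absurd hl n3
      | exact absurd hl (sig_le_zero _)
      | exact absurd hl (sig_le_half _)
      | exact absurd hl (three_le_sig _)
      | (rw [sig_le_iff] at hl; omega)

lemma good_inf : IsGoodLabeling Ginf lab0 :=
  good_of_F Ginf lab0 F F1 (fun x y z w h h' hne hl hF => F2 x y z w h h' hne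
    (by simpa [lab0_mk] using hl) hF) F3

/-! ### The finite graphs -/

/-- the vertices of the finite graph -/
def S (n : ℕ) : Finset Vx :=
  {Vx.v} ∪ (Finset.range (n + 2)).image Vx.a ∪ (Finset.range n).image Vx.c ∪
    (Finset.range n).image Vx.p ∪ (Finset.range n).image Vx.q

lemma mem_v (n : ℕ) : Vx.v ∈ S n := by simp [S]
lemma mem_a {n i : ℕ} : Vx.a i ∈ S n ↔ i < n + 2 := by simp [S]
lemma mem_c {n i : ℕ} : Vx.c i ∈ S n ↔ i < n := by simp [S]
lemma mem_p {n i : ℕ} : Vx.p i ∈ S n ↔ i < n := by simp [S]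
lemma mem_q {n i : ℕ} : Vx.q i ∈ S n ↔ i < n := by simp [S]

/-- The finite graph `Gn n`. -/
def Gn (n : ℕ) : SimpleGraph (S n) := Ginf.comap Subtype.val

lemma Gn_adj {n : ℕ} {x y : S n} : (Gn n).Adj x y ↔ Ginf.Adj x.1 y.1 := Iff.rfl

lemma good_Gn (n : ℕ) : IsGood (Gn n) :=
  ⟨_, good_comap Subtype.val Subtype.val_injective Ginf lab0 good_inf⟩

/-- the vertex `v` of `Gn n` -/
def vv (n : ℕ) : S n := ⟨Vx.v, mem_v n⟩
/-- the vertex `a_i` of `Gn n` -/
def va (n i : ℕ) (h : i < n + 2) : S n := ⟨Vx.a i, mem_a.2 h⟩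
/-- the vertex `c_i` of `Gn n` -/
def vc (n i : ℕ) (h : i < n) : S n := ⟨Vx.c i, mem_c.2 h⟩
/-- the vertex `p_i` of `Gn n` -/
def vp (n i : ℕ) (h : i < n) : S n := ⟨Vx.p i, mem_p.2 h⟩
/-- the vertex `q_i` of `Gn n` -/
def vq (n i : ℕ) (h : i < n) : S n := ⟨Vx.q i, mem_q.2 h⟩

lemma between_Gn {n : ℕ} {lab : Sym2 (S n) → ℝ} (hg : IsGoodLabeling (Gn n) lab) (i : ℕ)
    (hi : i < n) :
    (lab s(vv n, va n i (by omega)) < lab s(vv n, va n (i + 1) (by omega)) ∧
      lab s(vv n, va n (i + 1) (by omega)) < lab s(vv n, va n (i + 2) (by omega))) ∨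
    (lab s(vv n, va n (i + 1) (by omega)) < lab s(vv n, va n i (by omega)) ∧
      lab s(vv n, va n (i + 2) (by omega)) < lab s(vv n, va n (i + 1) (by omega))) := by
  refine between hg (c := vc n i hi) (p := vp n i hi) (q := vq n i hi) ?_ ?_ ?_ ?_ ?_ ?_ ?_ ?_ ?_
    ?_ ?_ ?_ ?_ ?_ ?_ ?_ ?_ ?_ ?_ ?_ ?_ <;>
    simp [Gn_adj, Ginf_adj, half, vv, va, vc, vp, vq]

lemma lower {n : ℕ} (hn : 1 ≤ n) {lab : Sym2 (S n) → ℝ} (hg : IsGoodLabeling (Gn n) lab) :
    ((n + 2 : ℕ) : ℕ∞) ≤ (lab '' (Gn n).edgeSet).encard := by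
  classical
  set s : ℕ → ℝ := fun i => if h : i < n + 2 then lab s(vv n, va n i h) else 0 with hs
  have hsi : ∀ i (h : i < n + 2), s i = lab s(vv n, va n i h) := by
    intro i h
    simp [hs, h]
  have hb : ∀ i, i < n → (s i < s (i + 1) ∧ s (i + 1) < s (i + 2)) ∨
      (s (i + 1) < s i ∧ s (i + 2) < s (i + 1)) := by
    intro i hi
    rw [hsi i (by omega), hsi (i + 1) (by omega), hsi (i + 2) (by omega)]
    exact between_Gn hg i hi
  have hm : (∀ i, i < n + 1 → s i < s (i + 1)) ∨ (∀ i, i < n + 1 → s (i + 1) < s i) := by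
    have key : ∀ m, m < n → (∀ i, i < m + 2 → s i < s (i + 1)) ∨
        (∀ i, i < m + 2 → s (i + 1) < s i) := by
      intro m
      induction m with
      | zero =>
        intro h0
        rcases hb 0 h0 with ⟨h1, h2⟩ | ⟨h1, h2⟩
        · left
          intro i hi
          have : i = 0 ∨ i = 1 := by omega
          rcases this with rfl | rfl
          · exact h1
          · exact h2
        · right
          intro i hi
          have : i = 0 ∨ i = 1 := by omega
          rcases this with rfl | rfl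
          · exact h1
          · exact h2
      | succ m ih =>
        intro hmn
        rcases ih (by omega) with h | h
        · left
          intro i hi
          rcases Nat.lt_or_ge i (m + 2) with h1 | h1
          · exact h i h1
          · have : i = m + 2 := by omega
            subst this
            rcases hb (m + 1) hmn with ⟨_, h3⟩ | ⟨h2, _⟩
            · exact h3
            · exact absurd (h (m + 1) (by omega)) (not_lt.mpr h2.le)
        · right
          intro i hi
          rcases Nat.lt_or_ge i (m + 2) with h1 | h1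
          · exact h i h1
          · have : i = m + 2 := by omega
            subst this
            rcases hb (m + 1) hmn with ⟨h2, _⟩ | ⟨_, h3⟩
            · exact absurd (h (m + 1) (by omega)) (not_lt.mpr h2.le)
            · exact h3
    have := key (n - 1) (by omega)
    have e : n - 1 + 2 = n + 1 := by omega
    rwa [e] at this
  have hne : ∀ i j, i < j → j < n + 2 → s i ≠ s j := by
    rcases hm with hm | hm
    · have : ∀ i j, i < j → j < n + 2 → s i < s j := by
        intro i j hij
        induction j, hij using Nat.le_induction with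
        | base => intro h; exact hm i (by omega)
        | succ j hj ih => intro h; exact (ih (by omega)).trans (hm j (by omega))
      exact fun i j h1 h2 => (this i j h1 h2).ne
    · have : ∀ i j, i < j → j < n + 2 → s j < s i := by
        intro i j hij
        induction j, hij using Nat.le_induction with
        | base => intro h; exact hm i (by omega)
        | succ j hj ih => intro h; exact (hm j (by omega)).trans (ih (by omega))
      exact fun i j h1 h2 => (this i j h1 h2).ne'
  have hinj : Set.InjOn s (Finset.range (n + 2) : Set ℕ) := by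
    intro i hi j hj hij
    simp only [Finset.coe_range, Set.mem_Iio] at hi hj
    rcases lt_trichotomy i j with h | h | h
    · exact absurd hij (hne i j h hj)
    · exact h
    · exact absurd hij.symm (hne j i h hi)
  have hsub : s '' (Finset.range (n + 2) : Set ℕ) ⊆ lab '' (Gn n).edgeSet := by
    rintro _ ⟨i, hi, rfl⟩
    simp only [Finset.coe_range, Set.mem_Iio] at hi
    refine ⟨s(vv n, va n i hi), ?_, (hsi i hi).symm⟩
    rw [SimpleGraph.mem_edgeSet]
    simp [Gn_adj, Ginf_adj, half, vv, va]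
  calc ((n + 2 : ℕ) : ℕ∞) = (s '' (Finset.range (n + 2) : Set ℕ)).encard := by
        rw [hinj.encard_image, Set.encard_coe_eq_coe_finsetCard, Finset.card_range]
    _ ≤ _ := Set.encard_le_encard hsub

/-! ### The tree decomposition -/

lemma pathGraph_isTree (m : ℕ) : (pathGraph (m + 1)).IsTree := by
  refine ⟨pathGraph_connected m, ?_⟩
  have hgood : IsGoodLabeling (pathGraph (m + 1)) (fun _ => 0) := by
    refine good_of_F _ _ (fun x y w => (x < y ∧ y ≤ w) ∨ (y < x ∧ w ≤ y)) ?_ ?_ ?_
    · intro x y h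
      rw [pathGraph_adj] at h
      simp only [Fin.lt_def, Fin.le_def]
      omega
    · intro x y z w h h' hne _ hF
      rw [pathGraph_adj] at h h'
      simp only [Fin.lt_def, Fin.le_def, ne_eq, Fin.ext_iff] at *
      omega
    · intro x y y' w h h' hF hF'
      rw [pathGraph_adj] at h h'
      simp only [Fin.lt_def, Fin.le_def, Fin.ext_iff] at *
      omega
  have hall : ∀ {x y : Fin (m + 1)} (r : (pathGraph (m + 1)).Walk x y),
      Increasing (fun _ => 0) r := by
    intro x y r
    unfold Increasing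
    rw [List.pairwise_map]
    exact List.pairwise_of_forall (fun _ _ => le_rfl)
  rw [isAcyclic_iff_subsingleton_path]
  intro x y
  refine ⟨fun p q => ?_⟩
  exact Subtype.ext (hgood x y p.1 q.1 p.2 q.2 (hall _) (hall _))

lemma interval_preconnected (m : ℕ) (s : Set (Fin m))
    (hs : ∀ i j k : Fin m, i ∈ s → k ∈ s → i ≤ j → j ≤ k → j ∈ s) :
    ((pathGraph m).induce s).Preconnected := by
  have key : ∀ (d : ℕ) (x y : s), y.1.1 = x.1.1 + d → ((pathGraph m).induce s).Reachable x y := by
    intro d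
    induction d with
    | zero =>
      intro x y h
      have : x = y := Subtype.ext (Fin.ext (by omega))
      rw [this]
    | succ d ih =>
      intro x y h
      have hlt : x.1.1 + 1 < m := by
        have := y.1.2
        omega
      have hz : (⟨x.1.1 + 1, hlt⟩ : Fin m) ∈ s := by
        refine hs x.1 _ y.1 x.2 y.2 ?_ ?_
        · rw [Fin.le_def]; simp
        · rw [Fin.le_def]; simp only; omega
      have hadj : ((pathGraph m).induce s).Adj x ⟨⟨x.1.1 + 1, hlt⟩, hz⟩ := by
        rw [SimpleGraph.comap_adj]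
        rw [pathGraph_adj]
        left
        rfl
      refine hadj.reachable.trans (ih _ y ?_)
      simp only
      omega
  intro x y
  rcases le_total x.1.1 y.1.1 with h | h
  · exact key (y.1.1 - x.1.1) x y (by omega)
  · exact (key (x.1.1 - y.1.1) y x (by omega)).symm

/-- the bags -/
def bagOf (i : ℕ) : Finset Vx :=
  [Vx.v, Vx.a i, Vx.a (i + 1), Vx.a (i + 2), Vx.c i, Vx.p i, Vx.q i].toFinset

lemma mem_bagOf {i : ℕ} {x : Vx} : x ∈ bagOf i ↔ x = Vx.v ∨ x = Vx.a i ∨ x = Vx.a (i + 1) ∨
    x = Vx.a (i + 2) ∨ x = Vx.c i ∨ x = Vx.p i ∨ x = Vx.q i := by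
  simp [bagOf]

lemma tree_decomposition (k : ℕ) : HasTreeDecomposition (Gn (k + 1)) 6 := by
  refine ⟨k + 1, pathGraph (k + 1), fun i => {x | x.1 ∈ bagOf i.1}, pathGraph_isTree k,
    ?_, ?_, ?_, ?_⟩
  · rintro ⟨x, hx⟩
    rcases x with _ | j | j | j | j
    · exact ⟨0, by simp [mem_bagOf]⟩
    · rw [mem_a] at hx
      rcases Nat.lt_or_ge j (k + 1) with h | h
      · exact ⟨⟨j, h⟩, by simp [mem_bagOf]⟩
      · refine ⟨⟨k, by omega⟩, ?_⟩
        simp only [Set.mem_ofPred_eq, mem_bagOf, Vx.a.injEq, reduceCtorEq]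
        omega
    · exact ⟨⟨j, mem_c.1 hx⟩, by simp [mem_bagOf]⟩
    · exact ⟨⟨j, mem_p.1 hx⟩, by simp [mem_bagOf]⟩
    · exact ⟨⟨j, mem_q.1 hx⟩, by simp [mem_bagOf]⟩
  · have key : ∀ x y : S (k + 1), half x.1 y.1 → ∃ i : Fin (k + 1), x.1 ∈ bagOf i.1 ∧
        y.1 ∈ bagOf i.1 := by
      rintro ⟨x, hx⟩ ⟨y, hy⟩ h
      rcases x with _ | i | i | i | i <;> rcases y with _ | j | j | j | j <;>
        simp only [half] at h
      · -- v a_j
        rw [mem_a] at hy
        rcases Nat.lt_or_ge j (k + 1) with h | h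
        · exact ⟨⟨j, h⟩, by simp [mem_bagOf], by simp [mem_bagOf]⟩
        · refine ⟨⟨k, by omega⟩, by simp [mem_bagOf], ?_⟩
          simp only [mem_bagOf, Vx.a.injEq, reduceCtorEq]
          omega
      · exact ⟨⟨j, mem_p.1 hy⟩, by simp [mem_bagOf, h], by simp [mem_bagOf]⟩
      · exact ⟨⟨j, mem_q.1 hy⟩, by simp [mem_bagOf, h], by simp [mem_bagOf]⟩
      · refine ⟨⟨i, mem_c.1 hx⟩, by simp [mem_bagOf], ?_⟩
        rcases h with h | h <;> simp [mem_bagOf, h]
      · exact ⟨⟨i, mem_c.1 hx⟩, by simp [mem_bagOf], by simp [mem_bagOf, h]⟩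
      · exact ⟨⟨i, mem_c.1 hx⟩, by simp [mem_bagOf], by simp [mem_bagOf, h]⟩
    intro x y h
    rw [Gn_adj, Ginf_adj] at h
    rcases h with h | h
    · exact key x y h
    · obtain ⟨i, h1, h2⟩ := key y x h
      exact ⟨i, h2, h1⟩
  · rintro ⟨x, hx⟩
    refine interval_preconnected _ _ ?_
    intro i j l hi hl hij hjl
    simp only [Set.mem_ofPred_eq, mem_bagOf] at hi hl ⊢
    rw [Fin.le_def] at hij hjl
    rcases x with _ | t | t | t | t <;>
      simp only [Vx.a.injEq, Vx.c.injEq, Vx.p.injEq, Vx.q.injEq, reduceCtorEq, false_or,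
        or_false, true_or] at hi hl ⊢ <;>
      omega
  · intro i
    have h1 : (Subtype.val '' {x : S (k + 1) | x.1 ∈ bagOf i.1}).encard =
        {x : S (k + 1) | x.1 ∈ bagOf i.1}.encard :=
      Set.InjOn.encard_image (Subtype.val_injective.injOn)
    rw [← h1]
    have h2 : Subtype.val '' {x : S (k + 1) | x.1 ∈ bagOf i.1} ⊆ (bagOf i.1 : Set Vx) := by
      rintro _ ⟨x, hx, rfl⟩
      exact hx
    refine (Set.encard_le_encard h2).trans ?_
    rw [Set.encard_coe_eq_coe_finsetCard]
    have h3 : (bagOf i.1).card ≤ 7 := List.toFinset_card_le _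
    exact_mod_cast h3

/-- There is no function `f` such that every good graph `G` is `f (treewidth G)`-good. -/
theorem result : ¬ ∃ f : ℕ → ℕ, ∀ (V : Type) [Finite V] (G : SimpleGraph V),
    IsGood G → IsCGood (f (treewidth G)) G := by
  rintro ⟨f, hf⟩
  set M := (Finset.range 7).sup f with hM
  obtain ⟨lab, hg, hc⟩ := hf (S (M + 1)) (Gn (M + 1)) (good_Gn (M + 1))
  have htw : treewidth (Gn (M + 1)) ≤ 6 := Nat.sInf_le (tree_decomposition M)
  have h1 : f (treewidth (Gn (M + 1))) ≤ M :=
    Finset.le_sup (f := f) (Finset.mem_range.2 (by omega))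
  have h2 := (lower (by omega) hg).trans hc
  have h3 : M + 1 + 2 ≤ f (treewidth (Gn (M + 1))) := by exact_mod_cast h2
  omega

end Pool.Agent.Results.MP_67e79f_co.TreewidthLabels
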